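import Mathlib
import Pool.Agent.H964R2.Ws.Cusp

/-!
# MP_8e338d_ag: sets of symmetric tensors of bounded symmetric rank are not closed

* `dim V = 3`: the conjecture for all degrees `k ≥ 3` and all `1 < r < R_S`.
* All dimensions: the set of forms of rank at most `r` is not closed for every `r` with
  `2 ≤ r < ∏ (a_i + 1)`, where `x₀ x₁^{a₁} ⋯ xₙ^{aₙ}` is any monomial of degree `k`
  (with some `a_i ≥ 2`).
-/

set_option autoImplicit false

namespace Pool.Agent.Results.MP_8e338d_ag.MonomialRange

open MvPolynomial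

/-- The polynomial `F` in `N` variables is a sum of `r` terms `c ℓ^k`, `ℓ` a linear form:
a homogeneous form of degree `k` and of symmetric rank at most `r` (or zero). -/
def RankAtMost (N k r : ℕ) (F : MvPolynomial (Fin N) ℂ) : Prop :=
  ∃ (c : Fin r → ℂ) (v : Fin r → Fin N → ℂ), F = ∑ i, C (c i) * (∑ j, C (v i j) * X j) ^ k

/-- The set of coefficient families of the forms of degree `k` in `N` variables of symmetric rank at
most `r` (the affine cone over `Y_r`, with the vertex), in the space of all coefficient families with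
the product topology (which induces the usual topology on the space of forms of degree `k`). -/
def rankLocus (N k r : ℕ) : Set ((Fin N →₀ ℕ) → ℂ) :=
  {f | ∃ F : MvPolynomial (Fin N) ℂ, RankAtMost N k r F ∧ f = fun d => F.coeff d}

/-- The set of forms of degree `k` in `N` variables of symmetric rank at most `r` is Zariski closed:
among the forms of degree `k` it is the set of common zeros of some polynomials in the
coefficients. -/
def ZariskiClosed (N k r : ℕ) : Prop :=
  ∃ P : Set (MvPolynomial (Fin N →₀ ℕ) ℂ), ∀ F : MvPolynomial (Fin N) ℂ, F.IsHomogeneous k →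
    (RankAtMost N k r F ↔ ∀ p ∈ P, eval (fun d => F.coeff d) p = 0)

theorem result :
    (∀ (n k : ℕ) (a : Fin n → ℕ), 1 + ∑ i, a i = k → (∃ i, 2 ≤ a i) →
      ∀ r : ℕ, 2 ≤ r → r < ∏ i, (a i + 1) → ¬ IsClosed (rankLocus (n + 1) k r)) ∧
    (∀ N k r : ℕ, 3 ≤ N → 4 ≤ k → 2 ≤ r → r < (k + 1) ^ 2 / 4 → ¬ IsClosed (rankLocus N k r)) ∧
    (∀ k r : ℕ, 3 ≤ k → 2 ≤ r →
      (∃ F : MvPolynomial (Fin 3) ℂ, F.IsHomogeneous k ∧ ¬ RankAtMost 3 k r F) →
      ¬ ZariskiClosed 3 k r) :=
  ⟨fun n k a hk ha r h2 hr => Pool.Agent.H964R2.Ws.main1 n k a hk ha r h2 hr,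
    fun N k r hN hk h2 hr => Pool.Agent.H964R2.Ws.main2 N k r hN hk h2 hr,
    fun k r hk h2 hr => Pool.Agent.H964R2.Ws.main4 k r hk h2 hr⟩

end Pool.Agent.Results.MP_8e338d_ag.MonomialRange
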